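import Pool.Agent.Helper77_TS.Red

/-!
Module FI: the first level.
-/

open Polynomial

namespace Pool.Agent.TS

open H12UBI H58UB

section quot

variable {k : Type} [Field k]

theorem finite_quot [Finite k] {f : k[X]} (hf : f.Monic) : Finite (k[X] ⧸ Ideal.span {f}) := by
  have : Module.Finite k (AdjoinRoot f) := hf.finite_adjoinRoot
  have h1 : Finite (AdjoinRoot f) := Module.finite_of_finite k
  exact h1

theorem card_quot [Finite k] {f : k[X]} (hf : f.Monic) :
    Nat.card (k[X] ⧸ Ideal.span {f}) = Nat.card k ^ f.natDegree := by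
  have h0 : f ≠ 0 := hf.ne_zero
  let b := AdjoinRoot.powerBasis h0
  have : Module.Finite k (AdjoinRoot f) := hf.finite_adjoinRoot
  have h1 : Nat.card (AdjoinRoot f) = Nat.card k ^ Module.finrank k (AdjoinRoot f) :=
    Module.natCard_eq_pow_finrank
  have h2 : Module.finrank k (AdjoinRoot f) = f.natDegree := by
    rw [b.finrank, AdjoinRoot.powerBasis_dim]
  rw [h2] at h1
  exact h1

end quot

theorem unit_order {K R : Type} [Group K] [CommRing R] [Finite R] (φ : K →* Rˣ) (u : Rˣ) :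
    ∃ m, 0 < m ∧ m ≤ Nat.card R ∧ ∀ e : ℕ, u ^ e ∈ φ.range ↔ m ∣ e := by
  refine ⟨orderOf (QuotientGroup.mk u : Rˣ ⧸ φ.range), ?_, ?_, ?_⟩
  · have h0 := isOfFinOrder_of_finite (QuotientGroup.mk u : Rˣ ⧸ φ.range)
    exact h0.orderOf_pos
  · have h1 : orderOf (QuotientGroup.mk u : Rˣ ⧸ φ.range) ≤ Nat.card (Rˣ ⧸ φ.range) :=
      orderOf_le_card
    have h2 : Nat.card (Rˣ ⧸ φ.range) ≤ Nat.card Rˣ :=
      Nat.card_le_card_of_surjective _ (QuotientGroup.mk_surjective (s := φ.range))
    have h3 : Nat.card Rˣ ≤ Nat.card R := Nat.card_le_card_of_injective _ Units.val_injective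
    omega
  · intro e
    rw [orderOf_dvd_iff_pow_eq_one, ← QuotientGroup.mk_pow]
    exact (QuotientGroup.eq_one_iff _).symm

theorem fi (li : LiStmt) : FiStmt := by
  intro V _ _ _ g h r ρ c π hd hfin S
  let k := IsLocalRing.ResidueField V
  let hb : k[X] := rd V h
  let ρb : k[X] := -rd V ρ
  have hmon : hb.Monic := hd.shape.monic.map _
  have hdeg : hb.natDegree = g + 1 := by
    change (h.map _).natDegree = g + 1
    rw [hd.shape.monic.natDegree_map, hd.shape.deg]
  let R := k[X] ⧸ Ideal.span {hb}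
  have hRfin : Finite R := finite_quot hmon
  let mk : k[X] →+* R := Ideal.Quotient.mk (Ideal.span {hb})
  have hmk : ∀ p : k[X], mk p = 0 ↔ hb ∣ p := fun p =>
    Ideal.Quotient.eq_zero_iff_mem.trans Ideal.mem_span_singleton
  -- the unit
  have hu : IsUnit (mk ρb) := by
    obtain ⟨x, y, hxy⟩ := hd.cop
    refine IsUnit.of_mul_eq_one (mk (-y)) ?_
    rw [← map_mul, ← sub_eq_zero, ← map_one mk, ← map_sub, hmk]
    refine ⟨-x, ?_⟩
    change -rd V ρ * -y - 1 = rd V h * -x
    linear_combination hxy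
  obtain ⟨u, hu⟩ := hu
  let φ : kˣ →* Rˣ := Units.map ((mk.comp C : k →+* R) : k →* R)
  obtain ⟨m, hm, hmc, hmu⟩ := unit_order φ u
  have hcard : m ≤ Nat.card k ^ (g + 1) := by
    rw [← hdeg, ← card_quot hmon]; exact hmc
  refine ⟨m, hm, hcard, ?_, ?_⟩
  · intro e a b ha hb' hdvd
    have h1 : mk (C a) = mk ρb ^ e * mk (C b) := by
      rw [← map_pow, ← map_mul, ← sub_eq_zero, ← map_sub, hmk]
      exact hdvd
    have h2 : φ (Units.mk0 a ha) = u ^ e * φ (Units.mk0 b hb') := by
      apply Units.ext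
      rw [Units.val_mul, Units.val_pow_eq_pow_val, hu]
      exact h1
    refine (hmu e).1 ⟨Units.mk0 a ha * (Units.mk0 b hb')⁻¹, ?_⟩
    rw [map_mul, map_inv, h2, mul_inv_cancel_right]
  · intro i hi
    obtain ⟨a, ha⟩ := (hmu (i * m)).2 (Dvd.intro_left i rfl)
    have h1 : mk (C (a : k)) = mk ρb ^ (i * m) := by
      have h5 := congrArg Units.val ha
      rw [Units.val_pow_eq_pow_val, hu] at h5
      exact h5
    have hdvd : rd V h ∣ C (a : k) - (-rd V ρ) ^ (i * m) * 1 := by
      rw [← hmk, mul_one, map_sub, h1, map_pow]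
      exact sub_self _
    obtain ⟨w, s, hP, hw, hs, h0, h1'⟩ := li V g h r ρ c π hd S (i * m)
      (Nat.one_le_iff_ne_zero.2 (Nat.mul_ne_zero (by omega) hm.ne')) (C (a : k)) 1 hdvd
      (by rw [natDegree_C]; exact Nat.zero_le _) (by rw [natDegree_one]; exact Nat.zero_le _)
    refine ⟨w, s, hP, h0, h1', ?_, ?_, ?_⟩
    · rw [pow_one]
      apply D_of_ge_lmap hd.irr
      rw [hd.lmap_e0, hs]
      have h6 := ge_ex (A := k) (p := C (a : k)) (n := 0) (by rw [natDegree_C])
      simpa using h6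
    · rw [pow_one]
      apply D_of_ge_lmap hd.irr
      rw [hd.lmap_e1, hw, mul_one]
      refine ge_ex ?_
      refine le_trans natDegree_pow_le ?_
      change i * m * hb.natDegree ≤ _
      rw [hdeg, mul_comm]
    · rw [hs]
      exact C_ne_zero.2 a.ne_zero

end Pool.Agent.TS
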