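import Pool.Agent.Helper23_TS.StmtsI
import Pool.Agent.Helper23_TS.Plc

/-!
Module IR: `h` irreducible modulo a place, all `r`, over all extensions of small degree.
-/

open Polynomial NumberField IsDedekindDomain

namespace Pool.Agent.TS

open H12UBI H58UB UBT

/-- an irreducible polynomial stays irreducible over extensions of degree coprime to its degree -/
theorem irr_ext {k k' : Type} [Field k] [Field k'] [Algebra k k'] [FiniteDimensional k k']
    {f : k[X]} (hf : Irreducible f) (hc : Nat.Coprime (Module.finrank k k') f.natDegree) :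
    Irreducible (f.map (algebraMap k k')) := by
  have hf0 : f ≠ 0 := hf.ne_zero
  have hfm0 : f.map (algebraMap k k') ≠ 0 := by
    rw [Ne, Polynomial.map_eq_zero]; exact hf0
  have hdeg : (f.map (algebraMap k k')).natDegree = f.natDegree := natDegree_map _
  have hnu : ¬ IsUnit (f.map (algebraMap k k')) := by
    intro hu
    have h1 := natDegree_eq_zero_of_isUnit hu
    rw [hdeg] at h1
    exact hf.natDegree_pos.ne' h1
  obtain ⟨q, hq, hqf⟩ := WfDvdMonoid.exists_irreducible_factor hnu hfm0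
  have hfact : Fact (Irreducible q) := ⟨hq⟩
  let A := AdjoinRoot q
  let a : A := AdjoinRoot.root q
  have hfin' : FiniteDimensional k' A :=
    (AdjoinRoot.powerBasis hq.ne_zero).finite
  have htower : IsScalarTower k k' A := inferInstance
  have hfin : FiniteDimensional k A := FiniteDimensional.trans k k' A
  have ha : aeval a f = 0 := by
    have h1 : aeval a f = aeval a (f.map (algebraMap k k')) := (aeval_map_algebraMap k' a f).symm
    rw [h1]
    obtain ⟨s, hs⟩ := hqf
    rw [hs, map_mul]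
    have h2 : aeval a q = 0 := by
      rw [AdjoinRoot.aeval_eq, AdjoinRoot.mk_self]
    rw [h2, zero_mul]
  have hmin : f = C f.leadingCoeff * minpoly k a := by
    have h1 := minpoly.eq_of_irreducible hf ha
    rw [← h1, mul_comm, mul_assoc, ← C_mul, inv_mul_cancel₀ (leadingCoeff_ne_zero.2 hf0), C_1,
      mul_one]
  have hndeg : f.natDegree = (minpoly k a).natDegree := by
    conv_lhs => rw [hmin]
    rw [natDegree_C_mul (leadingCoeff_ne_zero.2 hf0)]
  have hdvd : f.natDegree ∣ Module.finrank k A := by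
    rw [hndeg]
    exact minpoly.degree_dvd (IsIntegral.of_finite k a)
  have hfr : Module.finrank k A = Module.finrank k k' * q.natDegree := by
    rw [← Module.finrank_mul_finrank k k' A]
    congr 1
    rw [(AdjoinRoot.powerBasis hq.ne_zero).finrank, AdjoinRoot.powerBasis_dim]
  rw [hfr] at hdvd
  have hdvd2 : f.natDegree ∣ q.natDegree := hc.symm.dvd_of_dvd_mul_left hdvd
  have hle : f.natDegree ≤ q.natDegree := Nat.le_of_dvd hq.natDegree_pos hdvd2
  obtain ⟨s, hs⟩ := hqf
  have hs0 : s ≠ 0 := by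
    rintro rfl
    exact hfm0 (by rw [hs, mul_zero])
  have hsd : s.natDegree = 0 := by
    have h1 := congrArg natDegree hs
    rw [natDegree_mul hq.ne_zero hs0, hdeg] at h1
    omega
  obtain ⟨t, rfl⟩ := natDegree_eq_zero.1 hsd
  have ht : t ≠ 0 := by
    rintro rfl
    exact hs0 (map_zero C)
  have hu : IsUnit (C t : k'[X]) := isUnit_C.2 (isUnit_iff_ne_zero.2 ht)
  rw [hs]
  exact (irreducible_mul_isUnit hu).2 hq

theorem vr_loc (E : Type) [Field E] [NumberField E] (w : HeightOneSpectrum (𝓞 E)) :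
    IsLocalization.AtPrime (VR E w) w.asIdeal :=
  inferInstanceAs (IsLocalization w.asIdeal.primeCompl
    (HeightOneSpectrum.valuationSubringAtPrime E w))

theorem ir (nv : NvStmt) : IrStmt := by
  classical
  intro K K₁ _ _ _ _ _ g D d p hcop hfin hd hp v hpv h hmon hirr Cv hC
  by_cases hfo : IsOfFinOrder Cv.infty
  swap
  · rw [orderOf_eq_zero hfo]
    exact Nat.zero_le _
  obtain ⟨n₀, hn₀, hn₁⟩ := isOfFinOrder_iff_pow_eq_one.1 hfo
  have hU₀ : U Cv.shape n₀ := (Cv.infty_pow_eq_one_iff n₀).1 hn₁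
  have hr0 : Cv.r ≠ 0 := Cv.r_ne_zero
  have hfinE : Module.Finite K K₁ := FiniteDimensional.right ℚ K K₁
  have hdeg : Module.finrank ℚ K₁ ≤ D * d := by
    rw [← Module.finrank_mul_finrank ℚ K K₁, mul_comm D d]
    exact Nat.mul_le_mul hd hfin
  have fin : ∀ N, 0 < N → U Cv.shape N → orderOf Cv.infty ≤ N := by
    intro N hN hUN
    exact orderOf_le_of_pow_eq_one hN ((Cv.infty_pow_eq_one_iff N).2 hUN)
  -- the prime of `K₁`
  obtain ⟨⟨P, hPprime, hPv⟩⟩ := Ideal.nonempty_primesOver (S := 𝓞 K₁) v.asIdeal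
  have hpP : ((p : ℕ) : 𝓞 K₁) ∈ P := by
    have h1 : ((p : ℕ) : 𝓞 K) ∈ P.under (𝓞 K) := by rw [← hPv.over]; exact hpv
    have h2 : algebraMap (𝓞 K) (𝓞 K₁) ((p : ℕ) : 𝓞 K) ∈ P := h1
    rwa [map_natCast] at h2
  have hP0 : P ≠ ⊥ := by
    rintro rfl
    rw [Ideal.mem_bot, Nat.cast_eq_zero] at hpP
    exact hp.ne_zero hpP
  let w : HeightOneSpectrum (𝓞 K₁) := ⟨P, hPprime, hP0⟩
  have hvmax : v.asIdeal.IsMaximal := v.isMaximal
  have hPmax : P.IsMaximal := w.isMaximal
  -- degrees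
  have hgdeg : h.natDegree = g + 1 := by
    have h1 : Cv.h.natDegree = g + 1 := Cv.deg_h
    rw [hC, natDegree_map_eq_of_injective (algebraMap K K₁).injective,
      natDegree_map_eq_of_injective (RingOfIntegers.coe_injective)] at h1
    exact h1
  -- irreducibility modulo `P`
  let _ : Field (𝓞 K ⧸ v.asIdeal) := Ideal.Quotient.field v.asIdeal
  let _ : Field (𝓞 K₁ ⧸ P) := Ideal.Quotient.field P
  have hnz : NoZeroSMulDivisors (𝓞 K) (𝓞 K₁) := ⟨by
    intro a x hax
    rw [Algebra.smul_def, mul_eq_zero] at hax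
    rcases hax with h1 | h1
    · left
      exact (FaithfulSMul.algebraMap_injective (𝓞 K) (𝓞 K₁)) (by rw [h1, map_zero])
    · exact Or.inr h1⟩
  have hfd : Module.Finite (𝓞 K ⧸ v.asIdeal) (𝓞 K₁ ⧸ P) := inferInstance
  have hin : Module.finrank (𝓞 K ⧸ v.asIdeal) (𝓞 K₁ ⧸ P) ≤ D := by
    rw [← Ideal.inertiaDeg'_algebraMap]
    exact (Ideal.inertiaDeg_le_finrank (𝓞 K₁) K K₁ P v.ne_bot).trans hfin
  have hirr1 : Irreducible ((h.map (Ideal.Quotient.mk v.asIdeal)).map
      (algebraMap (𝓞 K ⧸ v.asIdeal) (𝓞 K₁ ⧸ P))) := by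
    refine irr_ext hirr ?_
    rw [hmon.natDegree_map, hgdeg]
    exact hcop _ Module.finrank_pos hin
  -- the local ring
  have hdvr : IsDiscreteValuationRing (VR K₁ w) := vr_dvr K₁ w
  have hinj := vr_inj K₁ w
  have hloc : IsLocalization.AtPrime (VR K₁ w) w.asIdeal := vr_loc K₁ w
  let eq : (𝓞 K₁ ⧸ w.asIdeal) ≃+* IsLocalRing.ResidueField (VR K₁ w) :=
    IsLocalization.AtPrime.equivQuotMaximalIdeal w.asIdeal (VR K₁ w)
  let hV : (VR K₁ w)[X] := (h.map (algebraMap (𝓞 K) (𝓞 K₁))).map (algebraMap (𝓞 K₁) (VR K₁ w))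
  have hVmap : Cv.h = hV.map (algebraMap (VR K₁ w) K₁) := by
    rw [hC, Polynomial.map_map, Polynomial.map_map, Polynomial.map_map]
    congr 1
  have hrdh : rd (VR K₁ w) hV = ((h.map (Ideal.Quotient.mk v.asIdeal)).map
      (algebraMap (𝓞 K ⧸ v.asIdeal) (𝓞 K₁ ⧸ P))).map (eq : (𝓞 K₁ ⧸ P) →+* _) := by
    change ((h.map (algebraMap (𝓞 K) (𝓞 K₁))).map (algebraMap (𝓞 K₁) (VR K₁ w))).map
      (IsLocalRing.residue (VR K₁ w)) = _
    rw [Polynomial.map_map, Polynomial.map_map, Polynomial.map_map, Polynomial.map_map]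
    congr 1
  have hirr2 : Irreducible (rd (VR K₁ w) hV) := by
    rw [hrdh]
    exact (MulEquiv.irreducible_iff (Polynomial.mapEquiv eq)).2 hirr1
  have hVdeg : (rd (VR K₁ w) hV).natDegree = g + 1 := by
    change (hV.map _).natDegree = g + 1
    have hVmon : hV.Monic := (hmon.map _).map _
    rw [hVmon.natDegree_map, ((hmon.map _).natDegree_map _), hmon.natDegree_map, hgdeg]
  have hhint : ∀ j, w.valuation K₁ (Cv.h.coeff j) ≤ 1 := by
    intro j
    rw [hVmap, coeff_map]
    exact (vr_mem K₁ w _).1 (hV.coeff j).2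
  by_cases hcase : ∃ i, 1 ≤ w.valuation K₁ (Cv.r.coeff i)
  · -- `r` dominates
    obtain ⟨i, hi⟩ := hcase
    have hi0 : Cv.r.coeff i ≠ 0 := by
      intro h0
      rw [h0, map_zero] at hi
      exact not_lt.2 hi zero_lt_one
    have hig : i ≤ g := (le_natDegree_of_ne_zero hi0).trans Cv.shape.degr
    have hdom : Dom g Cv.h Cv.r w := by
      refine dom_of hig hi0 fun j _ => ?_
      exact (pow_le_one₀ zero_le (hhint j)).trans (one_le_pow₀ hi)
    obtain ⟨N, hN0, hNB, hN⟩ := dom_bound (S := Cv.shape) hp hdeg (v := w) hpP hdom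
      ⟨n₀, hn₀, hU₀⟩
    exact (fin N hN0 hN).trans (hNB.trans (Nat.le_add_right _ _))
  · push Not at hcase
    -- the content of `r`
    obtain ⟨i₀, hi₀, hmax⟩ := Finset.exists_max_image (Finset.range (g + 1))
      (fun j => w.valuation K₁ (Cv.r.coeff j)) ⟨0, by simp⟩
    have hmax' : ∀ j, w.valuation K₁ (Cv.r.coeff j) ≤ w.valuation K₁ (Cv.r.coeff i₀) := by
      intro j
      rcases Nat.lt_or_ge j (g + 1) with hj | hj
      · exact hmax j (Finset.mem_range.2 hj)
      · rw [coeff_eq_zero_of_natDegree_lt (lt_of_le_of_lt Cv.shape.degr hj), map_zero]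
        exact zero_le
    set c := Cv.r.coeff i₀ with hc
    have hc0 : c ≠ 0 := by
      intro h0
      apply hr0
      ext j
      have h1 := hmax' j
      rw [h0, map_zero, le_zero_iff, Valuation.zero_iff] at h1
      rw [h1, coeff_zero]
    set ρE : K₁[X] := C c⁻¹ * Cv.r with hρE
    have hρint : ∀ j, w.valuation K₁ (ρE.coeff j) ≤ 1 := by
      intro j
      rw [hρE, coeff_C_mul, map_mul, map_inv₀, mul_comm, ← div_eq_mul_inv]
      exact div_le_one_of_le₀ (hmax' j) zero_le
    obtain ⟨ρ, hρ⟩ := vr_lift K₁ w hρint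
    have hrc : Cv.r = C c * ρE := by
      rw [hρE, ← mul_assoc, ← C_mul, mul_inv_cancel₀ hc0, C_1, one_mul]
    let c' : VR K₁ w := ⟨c, (vr_mem K₁ w c).2 (hcase i₀).le⟩
    have hc'c : algebraMap (VR K₁ w) K₁ c' = c := rfl
    have hrmap : Cv.r = (C c' * ρ).map (algebraMap (VR K₁ w) K₁) := by
      rw [Polynomial.map_mul, map_C, hc'c, hρ]
      exact hrc
    have hbc0 : c' ≠ 0 := by
      intro h0
      apply hc0
      rw [← hc'c, h0, map_zero]
    have hbcu : ¬ IsUnit c' := by
      rw [vr_lt]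
      exact hcase i₀
    have hρdeg : (rd (VR K₁ w) ρ).natDegree ≤ g := by
      refine natDegree_map_le.trans ?_
      have h1 : (ρ.map (algebraMap (VR K₁ w) K₁)).natDegree = ρ.natDegree :=
        natDegree_map_eq_of_injective hinj _
      rw [← h1, hρ, hρE]
      exact (natDegree_C_mul_le _ _).trans Cv.shape.degr
    have hρne : rd (VR K₁ w) ρ ≠ 0 := by
      intro h0
      have h0' : ρ.map (IsLocalRing.residue (VR K₁ w)) = 0 := h0
      have h1 : IsLocalRing.residue (VR K₁ w) (ρ.coeff i₀) = 0 := by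
        rw [← coeff_map, h0', coeff_zero]
      rw [IsLocalRing.residue_eq_zero_iff, IsLocalRing.mem_maximalIdeal, mem_nonunits_iff,
        vr_lt] at h1
      have h2 : ((ρ.coeff i₀ : VR K₁ w) : K₁) = 1 := by
        have h3 : algebraMap (VR K₁ w) K₁ (ρ.coeff i₀) = ρE.coeff i₀ := by rw [← hρ, coeff_map]
        have h4 : ρE.coeff i₀ = 1 := by
          rw [hρE, coeff_C_mul, ← hc, inv_mul_cancel₀ hc0]
        rw [h4] at h3
        exact h3
      rw [h2, map_one] at h1
      exact lt_irrefl _ h1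
    have hcop' : IsCoprime (rd (VR K₁ w) hV) (rd (VR K₁ w) ρ) := by
      rw [hirr2.coprime_iff_not_dvd]
      intro hdvd
      have h1 := natDegree_le_of_dvd hdvd hρne
      omega
    obtain ⟨N, hN0, hNB, hN⟩ := nv K₁ w p g hp hpP hV ρ c' Cv.h Cv.r Cv.shape hbc0 hbcu hcop'
      hVmap hrmap ⟨n₀, hn₀, hU₀⟩
    refine (fin N hN0 hN).trans (hNB.trans ((?_ : _ ≤ bl g p (D * d)).trans
      (Nat.le_add_left _ _)))
    unfold bl
    have hp1 : 1 ≤ p := hp.one_lt.le
    gcongr

end Pool.Agent.TS
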