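import Pool.Agent.Helper23_TS.Stmts

/-!
Reduction of the expansions at infinity modulo the uniformizer (`r` reduces to zero).
-/

open Polynomial

namespace Pool.Agent.TS

open H12UBI H58UB

theorem y0_eq_zero_of {A : Type*} [CommRing A] {g : ℕ} {h r : A[X]} (S : Shape g h r)
    (hr : r = 0) : y0 S = 0 := by
  refine unique_y0 S (ge_y0 S) (ge_zero 1) (y0_eq S) ?_
  rw [hr, map_zero, mul_zero, add_zero, zero_pow two_ne_zero]

section
variable {V : Type} [CommRing V] [IsDomain V] [IsDiscreteValuationRing V] {g : ℕ}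
  {h r ρ : V[X]} {c π : V}

theorem Dat.res_c (hd : Dat g h r ρ c π) : IsLocalRing.residue V c = 0 :=
  (residue_eq_zero_iff' hd.irr c).2 hd.pc

theorem Dat.rd_r (hd : Dat g h r ρ c π) : rd V r = 0 := by
  change r.map _ = 0
  rw [hd.hr, Polynomial.map_mul, Polynomial.map_C, hd.res_c, map_zero, zero_mul]

theorem Dat.lmap_y0 (hd : Dat g h r ρ c π) (S : Shape g h r) :
    lmap (IsLocalRing.residue V) (y0 S) = 0 := by
  rw [H12UBI.lmap_y0 S (IsLocalRing.residue V)]
  exact y0_eq_zero_of _ hd.rd_r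

/-- reduction of the first expansion -/
theorem Dat.lmap_e0 (hd : Dat g h r ρ c π) (S : Shape g h r) (z : CR V h r) :
    lmap (IsLocalRing.residue V) (e0 S z) = ex _ (rd V z.re) := by
  rw [e0_apply, map_add, map_mul, hd.lmap_y0 S, mul_zero, add_zero, lmap_ex]

/-- reduction of the second expansion -/
theorem Dat.lmap_e1 (hd : Dat g h r ρ c π) (S : Shape g h r) (z : CR V h r) :
    lmap (IsLocalRing.residue V) (e1 S z) = ex _ (rd V (z.re - h * z.im)) := by
  rw [e1_apply, map_add, map_mul, map_sub, map_neg, hd.lmap_y0 S, sub_zero, lmap_ex, lmap_ex,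
    lmap_ex]
  change _ = ex _ ((z.re - h * z.im).map _)
  rw [Polynomial.map_sub, Polynomial.map_mul, map_sub, map_mul]
  ring

theorem D_of_ge_lmap {π : V} (hπ : Irreducible π) {n : ℤ} {s : LaurentSeries V}
    (hs : Ge n (lmap (IsLocalRing.residue V) s)) : D π n s := by
  intro j hj
  have h1 := hs j hj
  rw [coeff_lmap, residue_eq_zero_iff' hπ] at h1
  exact h1

end

end Pool.Agent.TS
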