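import Pool.Agent.Helper23_TS.Stmts

/-!
Module ST: structure modulo the uniformizer of elements of the powers of `J`.
-/

open Polynomial

namespace Pool.Agent.TS

open H12UBI H58UB

theorem C_dvd_of_monic {A : Type} [CommRing A] {a : A} {h p : A[X]} (hh : h.Monic) (n : ℕ)
    (H : C a ∣ p * h ^ n) : C a ∣ p := by
  rw [Polynomial.C_dvd_iff_dvd_coeff]
  intro i
  have key : p.map (Ideal.Quotient.mk (Ideal.span {a})) = 0 := by
    obtain ⟨q, hq⟩ := H
    have h1 : (p * h ^ n).map (Ideal.Quotient.mk (Ideal.span {a})) = 0 := by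
      rw [hq, Polynomial.map_mul, Polynomial.map_C]
      have h2 : (Ideal.Quotient.mk (Ideal.span {a})) a = 0 :=
        Ideal.Quotient.eq_zero_iff_mem.2 (Ideal.mem_span_singleton_self a)
      rw [h2, map_zero, zero_mul]
    rw [Polynomial.map_mul, Polynomial.map_pow] at h1
    have h3 : ((h.map (Ideal.Quotient.mk (Ideal.span {a}))) ^ n).Monic := (hh.map _).pow n
    exact (Monic.mul_left_eq_zero_iff h3).1 h1
  have h4 := congrArg (fun q => q.coeff i) key
  simp only [coeff_map, coeff_zero] at h4
  exact Ideal.mem_span_singleton.1 (Ideal.Quotient.eq_zero_iff_mem.1 h4)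

/-- evaluation of `y` at zero modulo `r` -/
theorem re_pow_mul {A : Type} [CommRing A] {h r : A[X]} (w : CR A h r) (n : ℕ) :
    ∃ q, (w * yh h r ^ n).re = w.re * h ^ n + r * q := by
  induction n with
  | zero => exact ⟨0, by simp⟩
  | succ n ih =>
    obtain ⟨q, hq⟩ := ih
    refine ⟨q * h + (w * yh h r ^ n).im, ?_⟩
    rw [pow_succ, ← mul_assoc, QuadraticAlgebra.re_mul, hq]
    have h1 : (yh h r).re = h := rfl
    have h2 : (yh h r).im = 1 := rfl
    rw [h1, h2]
    ring

theorem st : StStmt := by
  intro V _ _ _ g h r ρ c π hd j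
  induction j with
  | zero =>
    intro w s hws
    have h1 : w = s := by
      have h2 : w * yh h r ^ 0 = cst h r (c ^ 0) * s := hws
      rwa [pow_zero, mul_one, pow_zero, map_one, one_mul] at h2
    refine ⟨rd V (w.re - h * w.im), by rw [pow_zero, one_mul], ?_⟩
    rw [pow_zero, one_mul, h1]
  | succ j ih =>
    intro w s hws
    have hws' : w * yh h r ^ (j + 1) = cst h r (c ^ (j + 1)) * s := hws
    obtain ⟨q, hq⟩ := re_pow_mul w (j + 1)
    have h1 : C c ∣ w.re := by
      refine C_dvd_of_monic hd.shape.monic (j + 1) ?_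
      have h2 : w.re * h ^ (j + 1) = (w * yh h r ^ (j + 1)).re - r * q := by rw [hq]; ring
      rw [h2, hws', QuadraticAlgebra.re_mul, cst_re, cst_im, mul_zero, zero_mul, add_zero]
      refine dvd_sub ?_ ?_
      · rw [pow_succ', C_mul]
        exact ⟨C (c ^ j) * s.re, by ring⟩
      · exact ⟨ρ * q, by linear_combination q * hd.hr⟩
    obtain ⟨A1, hA1⟩ := h1
    let w1 : CR V h r := ⟨A1 * h + ρ * w.im, A1⟩
    have hw1 : w * yh h r = cst h r c * w1 := by
      refine QuadraticAlgebra.ext ?_ ?_
      · rw [QuadraticAlgebra.re_mul, QuadraticAlgebra.re_mul, cst_re, cst_im]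
        have e1 : (yh h r).re = h := rfl
        have e2 : (yh h r).im = 1 := rfl
        have e3 : w1.re = A1 * h + ρ * w.im := rfl
        rw [e1, e2, e3, hA1]
        linear_combination w.im * hd.hr
      · rw [QuadraticAlgebra.im_mul, QuadraticAlgebra.im_mul, cst_re, cst_im]
        have e1 : (yh h r).re = h := rfl
        have e2 : (yh h r).im = 1 := rfl
        have e4 : w1.im = A1 := rfl
        rw [e1, e2, e4, hA1]
        ring
    have hP : Pr h r c j w1 s := by
      have h3 : cst h r c * (w1 * yh h r ^ j) = cst h r c * (cst h r (c ^ j) * s) := by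
        calc cst h r c * (w1 * yh h r ^ j) = (cst h r c * w1) * yh h r ^ j := by ring
          _ = (w * yh h r) * yh h r ^ j := by rw [hw1]
          _ = w * yh h r ^ (j + 1) := by rw [pow_succ']; ring
          _ = cst h r (c ^ (j + 1)) * s := hws'
          _ = cst h r c * (cst h r (c ^ j) * s) := by
            rw [pow_succ', map_mul (cst h r) c (c ^ j)]; ring
      exact cst_mul_cancel hd.c0 h3
    obtain ⟨b1, hb1, hb2⟩ := ih w1 s hP
    have e5 : w1.re - h * w1.im = ρ * w.im := by
      have e3 : w1.re = A1 * h + ρ * w.im := rfl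
      have e4 : w1.im = A1 := rfl
      rw [e3, e4]; ring
    rw [e5] at hb1
    have hb1' : rd V ρ * rd V w.im = rd V h ^ j * b1 := by
      rw [← hb1]; exact (Polynomial.map_mul _).symm
    have hdvd : rd V h ^ j ∣ rd V w.im := by
      have h4 : IsCoprime (rd V h ^ j) (rd V ρ) := hd.cop.pow_left
      exact h4.dvd_of_dvd_mul_left ⟨b1, hb1'⟩
    obtain ⟨b2, hb3⟩ := hdvd
    have hhj : rd V h ^ j ≠ 0 := ((hd.shape.monic.map _).pow j).ne_zero
    have hb4 : b1 = rd V ρ * b2 := by
      apply mul_left_cancel₀ hhj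
      rw [← hb1', hb3]; ring
    refine ⟨-b2, ?_, ?_⟩
    · have h5 : rd V (w.re - h * w.im) = rd V w.re - rd V h * rd V w.im := by
        change (w.re - h * w.im).map _ = _
        rw [Polynomial.map_sub, Polynomial.map_mul]
      have h6 : rd V w.re = 0 := by
        change w.re.map _ = 0
        rw [hA1, Polynomial.map_mul, Polynomial.map_C,
          (residue_eq_zero_iff' hd.irr c).2 hd.pc, map_zero, zero_mul]
      rw [h5, h6, hb3, pow_succ]
      ring
    · rw [hb2, hb4, pow_succ]
      ring

end Pool.Agent.TS
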